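import Pool.Agent.Helper28.MAJ.PfSum

/-!
Threshold of random tests (MP_b6562f_lc): any gap between the two acceptance probabilities.
-/

set_option autoImplicit false
set_option linter.unusedSectionVars false

namespace Pool.MAJ

open MvPolynomial Pool.Agent.Helper76.CDET

/-- exponential bound for the upper tail -/
theorem tail_le {Om : Type} [Fintype Om] (w : Om → ℝ) (hw0 : ∀ i, 0 ≤ w i)
    (hw1 : ∑ i, w i = 1) (bad : Om → Prop) [DecidablePred bad] {p κ : ℝ} (hp0 : 0 ≤ p)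
    (hpκ : p < κ) (hκ : κ ≤ 1) (hp : Pr w bad ≤ p) {N K : ℕ} (hK : κ * N ≤ K) :
    Pr (fun ω : Fin N → Om => ∏ k, w (ω k))
      (fun ω => K ≤ (Finset.univ.filter fun k => bad (ω k)).card) ≤
      Real.exp (-((κ - p) * (κ / (1 + κ - p) - p))) ^ N := by
  set t : ℝ := 1 + κ - p with htdef
  have ht : 1 < t := by rw [htdef]; linarith
  have ht0 : 0 < t := by linarith
  refine (chernoff w hw0 hw1 bad ht.le hp N K).trans ?_
  have h1 : (1 + p * (t - 1)) ^ N ≤ Real.exp (N * (p * (t - 1))) := by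
    rw [Real.exp_nat_mul]
    refine pow_le_pow_left₀ ?_ ?_ N
    · have := mul_nonneg hp0 (by linarith : (0:ℝ) ≤ t - 1)
      linarith
    · have := Real.add_one_le_exp (p * (t - 1))
      linarith
  have h2 : Real.exp (K * ((t - 1) / t)) ≤ t ^ K := by
    rw [Real.exp_nat_mul]
    refine pow_le_pow_left₀ (Real.exp_pos _).le ?_ K
    have h3 : Real.exp ((t - 1) / t) ≤ t := by
      rw [← Real.le_log_iff_exp_le ht0]
      have h4 := Real.one_sub_inv_le_log_of_pos ht0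
      have h5 : (t - 1) / t = 1 - t⁻¹ := by field_simp
      rw [h5]
      exact h4
    exact h3
  have h6 : κ * N * ((t - 1) / t) ≤ K * ((t - 1) / t) :=
    mul_le_mul_of_nonneg_right hK (div_nonneg (by linarith) ht0.le)
  calc (1 + p * (t - 1)) ^ N / t ^ K
      ≤ Real.exp (N * (p * (t - 1))) / Real.exp (K * ((t - 1) / t)) :=
        div_le_div₀ (Real.exp_pos _).le h1 (Real.exp_pos _) h2
    _ = Real.exp (N * (p * (t - 1)) - K * ((t - 1) / t)) := (Real.exp_sub _ _).symm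
    _ ≤ Real.exp (N * (-((κ - p) * (κ / t - p)))) := by
        refine Real.exp_le_exp.2 ?_
        have h7 : t - 1 = κ - p := by rw [htdef]; ring
        have h8 : (N:ℝ) * (-((κ - p) * (κ / t - p))) =
            N * (p * (t - 1)) - κ * N * ((t - 1) / t) := by
          rw [h7]
          ring
        linarith
    _ = _ := Real.exp_nat_mul _ _

theorem rate_pos {p κ : ℝ} (hp0 : 0 ≤ p) (hpκ : p < κ) (hκ : κ ≤ 1) :
    0 < (κ - p) * (κ / (1 + κ - p) - p) := by
  refine mul_pos (by linarith) ?_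
  rw [sub_pos, lt_div_iff₀ (by linarith)]
  nlinarith

/-- **error reduction inside the model**, any gap: errors `e1`, `e2` with `e1 + e2 < 1` are
reduced to any `eps' > 0`; determinants and Pfaffians -/
theorem majority_gap (e1 e2 eps' : ℝ) (h1 : 0 ≤ e1) (h2 : 0 ≤ e2) (he : e1 + e2 < 1)
    (he' : 0 < eps') : ∃ N : ℕ, 1 ≤ N ∧
    ∀ (F : Type) [Field F] (V Ya Om : Type) [Fintype V] [DecidableEq V] [Fintype Om]
      (w : Om → ℝ) (_ : ∀ i, 0 ≤ w i) (_ : ∑ i, w i = 1) (f : Om → MvPolynomial (V ⊕ Ya) F),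
      ∃ (Om' Ya' : Type) (_ : Fintype Om') (w' : Om' → ℝ)
        (f' : Om' → MvPolynomial (V ⊕ Ya') F),
        (∀ i, 0 ≤ w' i) ∧ ∑ i, w' i = 1 ∧
        (∀ r m : ℕ, (∀ i, IsDetSum r m (f i)) →
          ∀ i, IsDetSum (2 ^ N * r ^ N) (N * m + 1) (f' i)) ∧
        (∀ r m δ ν : ℕ, (∀ i, IsPfSum r m δ ν (f i)) →
          ∀ i, IsPfSum (2 ^ N * r ^ N) (N * m) δ (N * ν) (f' i)) ∧
        ∀ S : Finset V,
          (Pr w (fun i => restr S (f i) = 0) ≤ e1 →
            Pr w' (fun i => restr S (f' i) = 0) ≤ eps') ∧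
          (Pr w (fun i => restr S (f i) ≠ 0) ≤ e2 →
            Pr w' (fun i => restr S (f' i) ≠ 0) ≤ eps') := by
  classical
  set θ : ℝ := (1 - e1 + e2) / 2 with hθ
  have hθ0 : 0 < θ := by rw [hθ]; linarith
  have hθ1 : θ ≤ 1 := by rw [hθ]; linarith
  have hθ2 : e2 < θ := by rw [hθ]; linarith
  have hθ3 : e1 < 1 - θ := by rw [hθ]; linarith
  set c1 : ℝ := (1 - θ - e1) * ((1 - θ) / (1 + (1 - θ) - e1) - e1) with hc1
  set c2 : ℝ := (θ - e2) * (θ / (1 + θ - e2) - e2) with hc2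
  have hc1p : 0 < c1 := rate_pos h1 hθ3 (by linarith)
  have hc2p : 0 < c2 := rate_pos h2 hθ2 hθ1
  have hlim : ∀ c : ℝ, 0 < c → ∃ N0 : ℕ, ∀ N, N0 ≤ N → Real.exp (-c) ^ N ≤ eps' := by
    intro c hc
    have h3 : Real.exp (-c) < 1 := Real.exp_lt_one_iff.2 (by linarith)
    obtain ⟨N0, hN0⟩ := exists_pow_lt_of_lt_one he' h3
    exact ⟨N0, fun N hN => (pow_le_pow_of_le_one (Real.exp_pos _).le h3.le hN).trans hN0.le⟩
  obtain ⟨N1, hN1⟩ := hlim c1 hc1p
  obtain ⟨N2, hN2⟩ := hlim c2 hc2p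
  set N : ℕ := max (max N1 N2) 1 with hNdef
  have hNa : N1 ≤ N := (le_max_left _ _).trans (le_max_left _ _)
  have hNb : N2 ≤ N := (le_max_right _ _).trans (le_max_left _ _)
  have hNc : 1 ≤ N := le_max_right _ _
  have hNR : (1:ℝ) ≤ N := by exact_mod_cast hNc
  set K : ℕ := ⌈θ * N⌉₊ with hKdef
  have hK1 : θ * N ≤ K := Nat.le_ceil _
  have hK2 : (K:ℝ) < θ * N + 1 := Nat.ceil_lt_add_one (by positivity)
  have hKpos : 1 ≤ K := Nat.one_le_iff_ne_zero.2 (by
    intro h0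
    rw [h0, Nat.cast_zero] at hK1
    have : 0 < θ * N := by positivity
    linarith)
  have hKN : K ≤ N := by
    refine Nat.ceil_le.2 ?_
    nlinarith
  have hK3 : (1 - θ) * N ≤ ((N - K + 1 : ℕ) : ℝ) := by
    rw [Nat.cast_add, Nat.cast_sub hKN, Nat.cast_one]
    linarith
  refine ⟨N, hNc, ?_⟩
  intro F _ V Ya Om _ _ _ w hw0 hw1 f
  have hW0 : ∀ ω : Fin N → Om, 0 ≤ ∏ k, w (ω k) :=
    fun ω => Finset.prod_nonneg fun k _ => hw0 _
  refine ⟨Fin N → Om, Ya ⊕ Finset (Fin N), inferInstance,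
    fun ω => ∏ k, w (ω k), fun ω => maj N K fun k => f (ω k), hW0, ?_,
    fun r m hf ω => isDetSum_maj hNc hKpos hKN _ fun k => hf _,
    fun r m δ ν hf ω => isPfSum_maj hNc hKpos hKN _ fun k => hf _, fun S => ⟨?_, ?_⟩⟩
  · have h4 := Finset.prod_univ_sum (fun _ : Fin N => (Finset.univ : Finset Om))
      (fun _ i => w i)
    rw [Fintype.piFinset_univ] at h4
    rw [← h4, hw1, Finset.prod_const_one]
  · intro h
    refine le_trans (Pr_mono hW0 fun ω h1 => ?_) ((tail_le w hw0 hw1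
      (fun i => restr S (f i) = 0) h1 hθ3 (by linarith) h hK3).trans (hN1 N hNa))
    by_contra h3
    rw [not_le] at h3
    have h4 := Finset.card_filter_add_card_filter_not (s := (Finset.univ : Finset
      (Fin N))) (fun k => restr S (f (ω k)) = 0)
    rw [Finset.card_univ, Fintype.card_fin] at h4
    exact (restr_maj_ne_zero (k := K) (fun k => f (ω k)) S).2 (by
      have h5 : (Finset.univ.filter fun k => restr S (f (ω k)) ≠ 0).card =
        (Finset.univ.filter fun k => ¬ restr S (f (ω k)) = 0).card := rfl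
      rw [h5]
      omega) h1
  · intro h
    refine le_trans (Pr_mono hW0 fun ω h1 => ?_) ((tail_le w hw0 hw1
      (fun i => restr S (f i) ≠ 0) h2 hθ2 hθ1 h hK1).trans (hN2 N hNb))
    exact (restr_maj_ne_zero _ S).1 h1

end Pool.MAJ
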