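import Pool.Agent.Helper28.MAJ.Sum

/-!
Majority of random tests (MP_b6562f_lc): the two-sided error of a random identity test is reduced
inside the model, by the polynomial `∑ z_T ∏ f_i` over the sets `T` of `k` among `2 k - 1`
independent copies.
-/

set_option autoImplicit false
set_option linter.unusedSectionVars false

namespace Pool.MAJ

open MvPolynomial Pool.Agent.Helper76.CDET

section maj
variable {F : Type} [Field F] {V Ya : Type}

/-- the majority polynomial -/
noncomputable def maj (N k : ℕ) (f : Fin N → MvPolynomial (V ⊕ Ya) F) :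
    MvPolynomial (V ⊕ (Ya ⊕ Finset (Fin N))) F :=
  ∑ T ∈ Finset.powersetCard k (Finset.univ : Finset (Fin N)),
    X (Sum.inr (Sum.inr T)) * ∏ i ∈ T, lift F V Sum.inl (f i)

theorem isDetSum_maj [Fintype V] {N k r m : ℕ} (hN : 1 ≤ N) (hk : 1 ≤ k) (hkN : k ≤ N)
    (f : Fin N → MvPolynomial (V ⊕ Ya) F) (hf : ∀ i, IsDetSum r m (f i)) :
    IsDetSum (2 ^ N * r ^ N) (N * m + 1) (maj N k f) := by
  have h1 : IsDetSum ((Finset.powersetCard k (Finset.univ : Finset (Fin N))).card *
      (1 * r ^ k)) (1 + k * m) (maj N k f) := by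
    refine IsDetSum.sum _ _ fun T hT => ?_
    have hc : T.card = k := (Finset.mem_powersetCard.1 hT).2
    refine (IsDetSum.of_entry (VDeg.X_inr 1 _)).mul ?_
    have h2 := IsDetSum.prod T (r := r) (m := m) (fun i => lift F V Sum.inl (f i))
      fun i _ => (hf i).lift (Yb := Ya ⊕ Finset (Fin N)) Sum.inl_injective
    rwa [hc] at h2
  refine h1.mono ?_ ?_ (by omega)
  · rw [one_mul]
    refine Nat.mul_le_mul ?_ ?_
    · rw [Finset.card_powersetCard, Finset.card_univ, Fintype.card_fin]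
      exact Nat.choose_le_two_pow _ _
    · rcases Nat.eq_zero_or_pos r with h | h
      · subst h
        rw [zero_pow (by omega), zero_pow (by omega)]
      · exact Nat.pow_le_pow_right h hkN
  · have := Nat.mul_le_mul_right m hkN
    omega

/-- put `z_T = 1` for `T = T₀` and `0` otherwise -/
noncomputable def spec (F V Ya : Type) [Field F] {N : ℕ} (T₀ : Finset (Fin N)) :
    MvPolynomial (V ⊕ (Ya ⊕ Finset (Fin N))) F →ₐ[F] MvPolynomial (V ⊕ Ya) F :=
  aeval (Sum.elim (fun e => X (Sum.inl e)) (Sum.elim (fun y => X (Sum.inr y))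
    fun T => if T = T₀ then 1 else 0))

theorem spec_lift {N : ℕ} (T₀ : Finset (Fin N)) (f : MvPolynomial (V ⊕ Ya) F) :
    spec F V Ya T₀ (lift F V Sum.inl f) = f := by
  unfold spec lift
  rw [aeval_rename]
  have h1 : (aeval ((Sum.elim (fun e => X (Sum.inl e)) (Sum.elim (fun y => X (Sum.inr y))
      fun T => if T = T₀ then 1 else 0)) ∘ Sum.map id Sum.inl) :
      MvPolynomial (V ⊕ Ya) F →ₐ[F] MvPolynomial (V ⊕ Ya) F) = AlgHom.id F _ := by
    apply algHom_ext
    rintro (e | y)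
    · simp
    · simp
  rw [h1, AlgHom.id_apply]

variable [DecidableEq V]

theorem restr_maj (N k : ℕ) (f : Fin N → MvPolynomial (V ⊕ Ya) F) (S : Finset V) :
    restr S (maj N k f) = ∑ T ∈ Finset.powersetCard k (Finset.univ : Finset (Fin N)),
      X (Sum.inr (Sum.inr T)) * ∏ i ∈ T, lift F V Sum.inl (restr S (f i)) := by
  unfold maj
  have h1 : ∀ g : MvPolynomial (V ⊕ (Ya ⊕ Finset (Fin N))) F, restr S g =
      (aeval (Sum.elim (fun e => if e ∈ S then X (Sum.inl e) else 0)
        (fun y => X (Sum.inr y))) : MvPolynomial (V ⊕ (Ya ⊕ Finset (Fin N))) F →ₐ[F]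
        MvPolynomial (V ⊕ (Ya ⊕ Finset (Fin N))) F) g := fun _ => rfl
  rw [h1, map_sum]
  refine Finset.sum_congr rfl fun T _ => ?_
  rw [map_mul, map_prod, aeval_X, Sum.elim_inr]
  congr 1
  refine Finset.prod_congr rfl fun i _ => ?_
  rw [← restr_lift, h1]

theorem restr_maj_ne_zero {N k : ℕ} (f : Fin N → MvPolynomial (V ⊕ Ya) F)
    (S : Finset V) [DecidablePred fun i => restr S (f i) ≠ 0] :
    restr S (maj N k f) ≠ 0 ↔ k ≤ (Finset.univ.filter fun i => restr S (f i) ≠ 0).card := by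
  rw [restr_maj]
  constructor
  · intro h
    obtain ⟨T, hT, hT0⟩ := Finset.exists_ne_zero_of_sum_ne_zero h
    have hc : T.card = k := (Finset.mem_powersetCard.1 hT).2
    rw [← hc]
    refine Finset.card_le_card fun i hi => ?_
    rw [Finset.mem_filter]
    refine ⟨Finset.mem_univ i, fun h0 => hT0 ?_⟩
    rw [Finset.prod_eq_zero hi (by rw [h0, map_zero]), mul_zero]
  · intro h h0
    obtain ⟨T, hT, hc⟩ := Finset.exists_subset_card_eq h
    have h1 := congrArg (spec F V Ya T) h0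
    rw [map_zero, map_sum, Finset.sum_eq_single T] at h1
    · rw [map_mul, map_prod] at h1
      have h2 : spec F V Ya T (X (Sum.inr (Sum.inr T))) = 1 := by
        unfold spec
        rw [aeval_X, Sum.elim_inr, Sum.elim_inr, if_pos rfl]
      rw [h2, one_mul, Finset.prod_eq_zero_iff] at h1
      obtain ⟨i, hi, h3⟩ := h1
      rw [spec_lift] at h3
      exact (Finset.mem_filter.1 (hT hi)).2 h3
    · intro T' _ hne
      rw [map_mul]
      have h2 : spec F V Ya T (X (Sum.inr (Sum.inr T'))) = 0 := by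
        unfold spec
        rw [aeval_X, Sum.elim_inr, Sum.elim_inr, if_neg hne]
      rw [h2, zero_mul]
    · intro hT'
      exact absurd (Finset.mem_powersetCard.2 ⟨Finset.subset_univ _, hc⟩) hT'

end maj

section chernoff
variable {Om : Type} [Fintype Om]

/-- probability of `p` for the weights `w` -/
noncomputable def Pr (w : Om → ℝ) (p : Om → Prop) : ℝ :=
  open Classical in ∑ i, w i * (if p i then 1 else 0)

theorem Pr_eq (w : Om → ℝ) (p : Om → Prop) [DecidablePred p] :
    Pr w p = ∑ i, w i * (if p i then 1 else 0) := by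
  unfold Pr
  refine Finset.sum_congr rfl fun i _ => ?_
  by_cases h : p i
  · rw [if_pos h, if_pos h]
  · rw [if_neg h, if_neg h]

theorem Pr_mono {w : Om → ℝ} (hw0 : ∀ i, 0 ≤ w i) {p q : Om → Prop} (h : ∀ i, p i → q i) :
    Pr w p ≤ Pr w q := by
  classical
  rw [Pr_eq, Pr_eq]
  refine Finset.sum_le_sum fun i _ => mul_le_mul_of_nonneg_left ?_ (hw0 i)
  split_ifs with h1 h2 h2
  · exact le_rfl
  · exact absurd (h i h1) h2
  · exact zero_le_one
  · exact le_rfl

theorem Pr_nonneg {w : Om → ℝ} (hw0 : ∀ i, 0 ≤ w i) (p : Om → Prop) : 0 ≤ Pr w p := by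
  classical
  rw [Pr_eq]
  refine Finset.sum_nonneg fun i _ => mul_nonneg (hw0 i) ?_
  split_ifs <;> norm_num

theorem chernoff (w : Om → ℝ) (hw0 : ∀ i, 0 ≤ w i) (hw1 : ∑ i, w i = 1) (bad : Om → Prop)
    [DecidablePred bad] {e t : ℝ} (ht : 1 ≤ t) (hp : Pr w bad ≤ e) (N K : ℕ) :
    Pr (fun ω : Fin N → Om => ∏ k, w (ω k))
      (fun ω => K ≤ (Finset.univ.filter fun k => bad (ω k)).card) ≤
      (1 + e * (t - 1)) ^ N / t ^ K := by
  classical
  have ht0 : 0 < t := by linarith
  have h1 : ∀ ω : Fin N → Om, (∏ k, w (ω k)) *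
      (if K ≤ (Finset.univ.filter fun k => bad (ω k)).card then (1:ℝ) else 0) ≤
      (∏ k, (w (ω k) * (if bad (ω k) then t else 1))) / t ^ K := by
    intro ω
    have h2 : ∏ k, (w (ω k) * (if bad (ω k) then t else 1)) = (∏ k, w (ω k)) *
        t ^ (Finset.univ.filter fun k => bad (ω k)).card := by
      rw [Finset.prod_mul_distrib, Finset.prod_ite, Finset.prod_const, Finset.prod_const_one,
        mul_one]
    rw [h2, mul_div_assoc]
    refine mul_le_mul_of_nonneg_left ?_ (Finset.prod_nonneg fun k _ => hw0 _)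
    rw [le_div_iff₀ (by positivity)]
    split_ifs with h
    · rw [one_mul]
      exact pow_le_pow_right₀ ht h
    · rw [zero_mul]
      positivity
  have h3 : ∑ ω : Fin N → Om, ∏ k, (w (ω k) * (if bad (ω k) then t else 1)) =
      (∑ i, w i * (if bad i then t else 1)) ^ N := by
    have h4 := Finset.prod_univ_sum (fun _ : Fin N => (Finset.univ : Finset Om))
      (fun _ i => w i * (if bad i then t else 1))
    rw [Fintype.piFinset_univ] at h4
    rw [← h4, Finset.prod_const, Finset.card_univ, Fintype.card_fin]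
  have h5 : ∑ i, w i * (if bad i then t else 1) = 1 + Pr w bad * (t - 1) := by
    rw [Pr_eq, Finset.sum_mul]
    nth_rewrite 2 [← hw1]
    rw [← Finset.sum_add_distrib]
    refine Finset.sum_congr rfl fun i _ => ?_
    split_ifs <;> ring
  have h6 : 0 ≤ Pr w bad := Pr_nonneg hw0 bad
  rw [Pr_eq]
  calc _ ≤ ∑ ω : Fin N → Om, (∏ k, (w (ω k) * (if bad (ω k) then t else 1))) / t ^ K :=
        Finset.sum_le_sum fun ω _ => h1 ω
    _ = (1 + Pr w bad * (t - 1)) ^ N / t ^ K := by
        rw [← Finset.sum_div, h3, h5]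
    _ ≤ _ := by
        refine div_le_div_of_nonneg_right (pow_le_pow_left₀ ?_ ?_ N) (by positivity)
        · have := mul_nonneg h6 (sub_nonneg.2 ht)
          linarith
        · have := mul_le_mul_of_nonneg_right hp (sub_nonneg.2 ht)
          linarith

/-- more than half of `2 K - 1` independent copies are bad with small probability -/
theorem exists_K {eps eps' : ℝ} (he : eps < 1 / 2) (he' : 0 < eps') : ∃ K : ℕ, 1 ≤ K ∧
    ∀ (Om : Type) [Fintype Om] (w : Om → ℝ) (_ : ∀ i, 0 ≤ w i) (_ : ∑ i, w i = 1)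
      (bad : Om → Prop) [DecidablePred bad] (_ : Pr w bad ≤ eps),
      Pr (fun ω : Fin (2 * K - 1) → Om => ∏ k, w (ω k))
        (fun ω => K ≤ (Finset.univ.filter fun k => bad (ω k)).card) ≤ eps' := by
  set e : ℝ := max eps (1 / 4) with hedef
  have h1 : e < 1 / 2 := max_lt he (by norm_num)
  have h2 : 1 / 4 ≤ e := le_max_right _ _
  have h3 : eps ≤ e := le_max_left _ _
  have hq0 : 0 ≤ 4 * e * (1 - e) := by nlinarith
  have hq1 : 4 * e * (1 - e) < 1 := by nlinarith
  obtain ⟨K, hK⟩ := exists_pow_lt_of_lt_one he' hq1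
  refine ⟨K + 1, by omega, fun Om _ w hw0 hw1 bad _ hp => ?_⟩
  have ht : 1 ≤ (1 - e) / e := by
    rw [le_div_iff₀ (by linarith)]
    linarith
  refine (chernoff w hw0 hw1 bad ht (hp.trans h3) (2 * (K + 1) - 1) (K + 1)).trans ?_
  have he0 : e ≠ 0 := by linarith
  have h4 : 1 + e * ((1 - e) / e - 1) = 2 * (1 - e) := by
    rw [mul_sub, mul_div_cancel₀ _ he0]
    ring
  rw [h4]
  have h5 : (2 * (1 - e)) ^ (2 * (K + 1) - 1) ≤ (2 * (1 - e)) ^ (2 * (K + 1)) :=
    pow_le_pow_right₀ (by linarith) (by omega)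
  have h6 : (2 * (1 - e)) ^ (2 * (K + 1)) / ((1 - e) / e) ^ (K + 1) =
      (4 * e * (1 - e)) ^ (K + 1) := by
    rw [pow_mul, ← div_pow]
    congr 1
    have h7 : (1 - e) ≠ 0 := by linarith
    rw [div_div_eq_mul_div, div_eq_iff h7]
    ring
  calc (2 * (1 - e)) ^ (2 * (K + 1) - 1) / ((1 - e) / e) ^ (K + 1)
      ≤ (2 * (1 - e)) ^ (2 * (K + 1)) / ((1 - e) / e) ^ (K + 1) :=
        div_le_div_of_nonneg_right h5 (by positivity)
    _ = (4 * e * (1 - e)) ^ (K + 1) := h6
    _ ≤ (4 * e * (1 - e)) ^ K := pow_le_pow_of_le_one hq0 hq1.le (by omega)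
    _ ≤ eps' := hK.le

end chernoff

/-- the errors of the majority polynomial -/
theorem majority_aux {eps eps' : ℝ} {K : ℕ}
    (hK : ∀ (Om : Type) [Fintype Om] (w : Om → ℝ) (_ : ∀ i, 0 ≤ w i) (_ : ∑ i, w i = 1)
      (bad : Om → Prop) [DecidablePred bad] (_ : Pr w bad ≤ eps),
      Pr (fun ω : Fin (2 * K - 1) → Om => ∏ k, w (ω k))
        (fun ω => K ≤ (Finset.univ.filter fun k => bad (ω k)).card) ≤ eps')
    {F : Type} [Field F] {V Ya Om : Type} [DecidableEq V] [Fintype Om]
    (w : Om → ℝ) (hw0 : ∀ i, 0 ≤ w i) (hw1 : ∑ i, w i = 1) (f : Om → MvPolynomial (V ⊕ Ya) F) :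
    ∑ ω : Fin (2 * K - 1) → Om, ∏ k, w (ω k) = 1 ∧ ∀ S : Finset V,
      (Pr w (fun i => restr S (f i) = 0) ≤ eps →
        Pr (fun ω : Fin (2 * K - 1) → Om => ∏ k, w (ω k))
          (fun ω => restr S (maj (2 * K - 1) K fun k => f (ω k)) = 0) ≤ eps') ∧
      (Pr w (fun i => restr S (f i) ≠ 0) ≤ eps →
        Pr (fun ω : Fin (2 * K - 1) → Om => ∏ k, w (ω k))
          (fun ω => restr S (maj (2 * K - 1) K fun k => f (ω k)) ≠ 0) ≤ eps') := by
  classical
  have hW0 : ∀ ω : Fin (2 * K - 1) → Om, 0 ≤ ∏ k, w (ω k) :=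
    fun ω => Finset.prod_nonneg fun k _ => hw0 _
  refine ⟨?_, fun S => ⟨?_, ?_⟩⟩
  · have h4 := Finset.prod_univ_sum (fun _ : Fin (2 * K - 1) => (Finset.univ : Finset Om))
      (fun _ i => w i)
    rw [Fintype.piFinset_univ] at h4
    rw [← h4, hw1, Finset.prod_const_one]
  · intro h
    refine le_trans (Pr_mono hW0 fun ω h1 => ?_) (hK Om w hw0 hw1 _ h)
    by_contra h3
    rw [not_le] at h3
    have h4 := Finset.card_filter_add_card_filter_not (s := (Finset.univ : Finset
      (Fin (2 * K - 1)))) (fun k => restr S (f (ω k)) = 0)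
    rw [Finset.card_univ, Fintype.card_fin] at h4
    exact (restr_maj_ne_zero (k := K) (fun k => f (ω k)) S).2 (by
      have h5 : (Finset.univ.filter fun k => restr S (f (ω k)) ≠ 0).card =
        (Finset.univ.filter fun k => ¬ restr S (f (ω k)) = 0).card := rfl
      rw [h5]
      omega) h1
  · intro h
    refine le_trans (Pr_mono hW0 fun ω h1 => ?_) (hK Om w hw0 hw1 _ h)
    exact (restr_maj_ne_zero _ S).1 h1

/-- **error reduction inside the model**: from any two-sided error less than `1 / 2` to any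
positive error -/
theorem majority (eps eps' : ℝ) (he : eps < 1 / 2) (he' : 0 < eps') : ∃ N : ℕ, 1 ≤ N ∧
    ∀ (F : Type) [Field F] (V Ya Om : Type) [Fintype V] [DecidableEq V] [Fintype Om]
      (w : Om → ℝ) (_ : ∀ i, 0 ≤ w i) (_ : ∑ i, w i = 1) (f : Om → MvPolynomial (V ⊕ Ya) F),
      ∃ (Om' Ya' : Type) (_ : Fintype Om') (w' : Om' → ℝ)
        (f' : Om' → MvPolynomial (V ⊕ Ya') F),
        (∀ i, 0 ≤ w' i) ∧ ∑ i, w' i = 1 ∧
        (∀ r m : ℕ, (∀ i, IsDetSum r m (f i)) →
          ∀ i, IsDetSum (2 ^ N * r ^ N) (N * m + 1) (f' i)) ∧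
        ∀ S : Finset V,
          (Pr w (fun i => restr S (f i) = 0) ≤ eps →
            Pr w' (fun i => restr S (f' i) = 0) ≤ eps') ∧
          (Pr w (fun i => restr S (f i) ≠ 0) ≤ eps →
            Pr w' (fun i => restr S (f' i) ≠ 0) ≤ eps') := by
  obtain ⟨K, hK1, hK⟩ := exists_K he he'
  refine ⟨2 * K - 1, by omega, ?_⟩
  intro F _ V Ya Om _ _ _ w hw0 hw1 f
  obtain ⟨h1, h2⟩ := majority_aux hK w hw0 hw1 f
  exact ⟨Fin (2 * K - 1) → Om, Ya ⊕ Finset (Fin (2 * K - 1)), inferInstance,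
    fun ω => ∏ k, w (ω k), fun ω => maj (2 * K - 1) K fun k => f (ω k),
    fun ω => Finset.prod_nonneg fun k _ => hw0 _, h1,
    fun r m hf ω => isDetSum_maj (by omega) hK1 (by omega) _ fun k => hf _, h2⟩

end Pool.MAJ
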