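import Pool.Agent.Helper28.MAJ.Maj
import Pool.Agent.Helper76.CPF.Pf

/-!
Majority of random tests (MP_b6562f_lc): sums of Pfaffians with cofactors.
-/

set_option autoImplicit false
set_option linter.unusedSectionVars false

namespace Pool.MAJ

open MvPolynomial Pool.Agent.Helper76.CDET

section block
variable {R : Type*} [CommRing R] {ι : Type*}

/-- Pfaffian of a block sum, for lists -/
theorem pfk_append (a : ι → ι → R) (k₁ k₂ : ℕ) (l₁ l₂ : List ι) (hl : l₁.length = 2 * k₁)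
    (h : ∀ x ∈ l₁, ∀ z ∈ l₂, a x z = 0) :
    Pool.PF.pfk a (k₁ + k₂) (l₁ ++ l₂) = Pool.PF.pfk a k₁ l₁ * Pool.PF.pfk a k₂ l₂ := by
  induction k₁ generalizing l₁ with
  | zero =>
    have : l₁ = [] := List.length_eq_zero_iff.1 (by omega)
    subst this
    rw [List.nil_append, zero_add, Pool.PF.pfk_zero_nil, one_mul]
  | succ k ih =>
    obtain _ | ⟨x, l⟩ := l₁
    · simp at hl
    · rw [List.cons_append, show k + 1 + k₂ = k + k₂ + 1 by omega, Pool.PF.pfk_succ_cons,
        Pool.PF.pfk_succ_cons, Pool.PF.se_append_right _ _ _ (by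
          intro z hz l'
          rw [h x List.mem_cons_self z hz, zero_mul])]
      rw [mul_comm, ← Pool.PF.se_mul_left]
      refine Pool.PF.se_congr fun z l' hp => ?_
      have hl' : l'.length = 2 * k := by
        have h1 := hp.length_eq
        rw [List.length_cons] at h1 hl
        omega
      rw [ih l' hl' fun y hy w hw => h y (List.mem_cons_of_mem _ (hp.mem_iff.2
        (List.mem_cons_of_mem _ hy))) w hw]
      ring

/-- the block sum -/
def blk {s t : ℕ} (A : Matrix (Fin (2 * s)) (Fin (2 * s)) R)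
    (B : Matrix (Fin (2 * t)) (Fin (2 * t)) R) :
    Matrix (Fin (2 * (s + t))) (Fin (2 * (s + t))) R :=
  (Matrix.fromBlocks A 0 0 B).submatrix
    (fun i => finSumFinEquiv.symm (Fin.cast (Nat.mul_add 2 s t) i))
    (fun i => finSumFinEquiv.symm (Fin.cast (Nat.mul_add 2 s t) i))

theorem pf_blk {s t : ℕ} (A : Matrix (Fin (2 * s)) (Fin (2 * s)) R)
    (B : Matrix (Fin (2 * t)) (Fin (2 * t)) R) :
    Pool.PF.pf (s + t) (blk A B) = Pool.PF.pf s A * Pool.PF.pf t B := by
  have h1 : blk A B = Matrix.of fun i j => Matrix.fromBlocks A 0 0 B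
      (finSumFinEquiv.symm (Fin.cast (Nat.mul_add 2 s t) i))
      (finSumFinEquiv.symm (Fin.cast (Nat.mul_add 2 s t) j)) := rfl
  have h2 : (List.ofFn fun i : Fin (2 * (s + t)) =>
      (finSumFinEquiv.symm (Fin.cast (Nat.mul_add 2 s t) i) : Fin (2 * s) ⊕ Fin (2 * t))) =
      (List.ofFn fun i : Fin (2 * s) => (Sum.inl i : Fin (2 * s) ⊕ Fin (2 * t))) ++
      (List.ofFn fun i : Fin (2 * t) => (Sum.inr i : Fin (2 * s) ⊕ Fin (2 * t))) := by
    have h3 := List.ofFn_add (n := 2 * s) (m := 2 * t)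
      (f := fun i : Fin (2 * s + 2 * t) => (finSumFinEquiv.symm i : Fin (2 * s) ⊕ Fin (2 * t)))
    have h4 := List.ofFn_congr (Nat.mul_add 2 s t) (fun i : Fin (2 * (s + t)) =>
      (finSumFinEquiv.symm (Fin.cast (Nat.mul_add 2 s t) i) : Fin (2 * s) ⊕ Fin (2 * t)))
    rw [h4]
    have h5 : (fun i : Fin (2 * s + 2 * t) => (finSumFinEquiv.symm (Fin.cast
        (Nat.mul_add 2 s t) (Fin.cast (Nat.mul_add 2 s t).symm i)) :
        Fin (2 * s) ⊕ Fin (2 * t))) = fun i => finSumFinEquiv.symm i := by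
      funext i
      rfl
    rw [h5, h3]
    congr 1
    · congr 1
      funext i
      exact finSumFinEquiv_symm_apply_castAdd i
    · congr 1
      funext i
      exact finSumFinEquiv_symm_apply_natAdd i
  rw [h1, Pool.PF.pf_eq_pfk (Matrix.fromBlocks A 0 0 B), h2, pfk_append _ _ _ _ _ (by simp) (by
      intro x hx z hz
      obtain ⟨i, rfl⟩ := List.mem_ofFn.1 hx
      obtain ⟨j, rfl⟩ := List.mem_ofFn.1 hz
      exact Matrix.fromBlocks_apply₁₂ _ _ _ _ _ _),
    ← Pool.PF.pf_eq_pfk (Matrix.fromBlocks A 0 0 B), ← Pool.PF.pf_eq_pfk (Matrix.fromBlocks A 0 0 B)]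
  rfl

theorem blk_apply {s t : ℕ} (A : Matrix (Fin (2 * s)) (Fin (2 * s)) R)
    (B : Matrix (Fin (2 * t)) (Fin (2 * t)) R) (p q : Fin (2 * (s + t))) :
    blk A B p q = 0 ∨ (∃ p' q', blk A B p q = A p' q') ∨ ∃ p' q', blk A B p q = B p' q' := by
  unfold blk
  rw [Matrix.submatrix_apply]
  rcases finSumFinEquiv.symm (Fin.cast (Nat.mul_add 2 s t) p) with p | p <;>
    rcases finSumFinEquiv.symm (Fin.cast (Nat.mul_add 2 s t) q) with q | q
  · exact Or.inr (Or.inl ⟨p, q, Matrix.fromBlocks_apply₁₁ _ _ _ _ _ _⟩)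
  · exact Or.inl (Matrix.fromBlocks_apply₁₂ _ _ _ _ _ _)
  · exact Or.inl (Matrix.fromBlocks_apply₂₁ _ _ _ _ _ _)
  · exact Or.inr (Or.inr ⟨p, q, Matrix.fromBlocks_apply₂₂ _ _ _ _ _ _⟩)

end block

section
variable {F : Type} [Field F] {V Ya : Type} [Fintype V]

theorem VDeg.one (d : ℕ) : VDeg d (1 : MvPolynomial (V ⊕ Ya) F) := by
  classical
  intro μ hμ
  have h1 : (1 : MvPolynomial (V ⊕ Ya) F) = C 1 := (C_1).symm
  rw [h1] at hμ
  have h2 := Finset.mem_singleton.1 (support_C_subset' hμ)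
  subst h2
  simp
where
  support_C_subset' {c : F} {μ : (V ⊕ Ya) →₀ ℕ}
      (h : μ ∈ (C c : MvPolynomial (V ⊕ Ya) F).support) : μ ∈ ({0} : Finset ((V ⊕ Ya) →₀ ℕ)) := by
    classical
    rw [mem_support_iff, coeff_C] at h
    split_ifs at h with h'
    · rw [← h']
      exact Finset.mem_singleton_self _
    · exact absurd rfl h

theorem VDeg.mul {d d' : ℕ} {p q : MvPolynomial (V ⊕ Ya) F} (hp : VDeg d p) (hq : VDeg d' q) :
    VDeg (d + d') (p * q) := by
  classical
  intro μ hμ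
  have h1 := support_mul p q hμ
  rw [Finset.mem_add] at h1
  obtain ⟨a, ha, b, hb, rfl⟩ := h1
  have h2 := hp a ha
  have h3 := hq b hb
  have h4 : ∑ e, (a + b) (Sum.inl e) = ∑ e, a (Sum.inl e) + ∑ e, b (Sum.inl e) := by
    rw [← Finset.sum_add_distrib]
    exact Finset.sum_congr rfl fun e _ => rfl
  rw [h4]
  omega

/-- any finite index set -/
theorem pf_of_fintype {ι : Type} [Fintype ι] {r m δ ν : ℕ} (hr : Fintype.card ι = r)
    {f : MvPolynomial (V ⊕ Ya) F} (s : ι → ℕ) (P : ι → MvPolynomial (V ⊕ Ya) F)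
    (A : ∀ i, Matrix (Fin (2 * s i)) (Fin (2 * s i)) (MvPolynomial (V ⊕ Ya) F))
    (hs : ∀ i, s i ≤ m) (hP : ∀ i, VDeg ν (P i)) (hA : ∀ i p q, VDeg δ (A i p q))
    (hf : f = ∑ i, P i * Pool.PF.pf (s i) (A i)) : IsPfSum r m δ ν f := by
  classical
  subst hr
  have e := (Fintype.equivFin ι).symm
  refine ⟨fun i => s (e i), fun i => P (e i), fun i => A (e i), fun i => hs _, fun i => hP _,
    fun i p q => hA _ p q, ?_⟩
  rw [hf, ← Equiv.sum_comp e]

theorem IsPfSum.mono' {r m δ ν r' m' ν' : ℕ} {f : MvPolynomial (V ⊕ Ya) F}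
    (h : IsPfSum r m δ ν f) (hr : r ≤ r') (hm : m ≤ m') (hν : ν ≤ ν') :
    IsPfSum r' m' δ ν' f := by
  classical
  obtain ⟨s, P, A, hs, hP, hA, hf⟩ := h
  obtain ⟨k, rfl⟩ := Nat.exists_eq_add_of_le hr
  refine pf_of_fintype (ι := Fin r ⊕ Fin k) (by simp) (Sum.elim s fun _ => 0)
    (Sum.elim P fun _ => 0)
    (fun i => match i with
      | Sum.inl i => A i
      | Sum.inr _ => (0 : Matrix (Fin (2 * 0)) (Fin (2 * 0)) (MvPolynomial (V ⊕ Ya) F)))
    ?_ ?_ ?_ ?_
  · rintro (i | i)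
    · exact (hs i).trans hm
    · exact Nat.zero_le _
  · rintro (i | i)
    · exact fun μ hμ => (hP i μ hμ).trans hν
    · exact VDeg.zero _
  · rintro (i | i) p q
    · exact hA i p q
    · exact VDeg.zero _
  · rw [Fintype.sum_sum_type, hf]
    symm
    refine (add_eq_left.2 (Finset.sum_eq_zero fun i _ => ?_)).trans rfl
    exact zero_mul _

theorem IsPfSum.add' {r m δ ν r' : ℕ} {f g : MvPolynomial (V ⊕ Ya) F}
    (h : IsPfSum r m δ ν f) (h' : IsPfSum r' m δ ν g) : IsPfSum (r + r') m δ ν (f + g) := by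
  classical
  obtain ⟨s, P, A, hs, hP, hA, hf⟩ := h
  obtain ⟨s', P', A', hs', hP', hA', hf'⟩ := h'
  refine pf_of_fintype (ι := Fin r ⊕ Fin r') (by simp) (Sum.elim s s') (Sum.elim P P')
    (fun i => match i with
      | Sum.inl i => A i
      | Sum.inr i => A' i) ?_ ?_ ?_ ?_
  · rintro (i | i)
    · exact hs i
    · exact hs' i
  · rintro (i | i)
    · exact hP i
    · exact hP' i
  · rintro (i | i) p q
    · exact hA i p q
    · exact hA' i p q
  · rw [Fintype.sum_sum_type, hf, hf']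
    rfl

theorem IsPfSum.zero' (m δ ν : ℕ) : IsPfSum 0 m δ ν (0 : MvPolynomial (V ⊕ Ya) F) :=
  ⟨fun _ => 0, fun _ => 0, fun _ => 0, fun i => i.elim0, fun i => i.elim0, fun i => i.elim0,
    by simp⟩

theorem IsPfSum.of_cofactor {δ ν : ℕ} {p : MvPolynomial (V ⊕ Ya) F} (h : VDeg ν p) (m : ℕ) :
    IsPfSum 1 m δ ν p := by
  refine ⟨fun _ => 0, fun _ => p, fun _ => 0, fun _ => Nat.zero_le _, fun _ => h,
    fun _ q => absurd q.2 (by simp), ?_⟩
  rw [Finset.sum_const, Finset.card_univ, Fintype.card_fin, one_smul, Pool.PF.pf_zero, mul_one]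

theorem IsPfSum.mul' {r m δ ν r' m' ν' : ℕ} {f g : MvPolynomial (V ⊕ Ya) F}
    (h : IsPfSum r m δ ν f) (h' : IsPfSum r' m' δ ν' g) :
    IsPfSum (r * r') (m + m') δ (ν + ν') (f * g) := by
  classical
  obtain ⟨s, P, A, hs, hP, hA, hf⟩ := h
  obtain ⟨s', P', A', hs', hP', hA', hf'⟩ := h'
  refine pf_of_fintype (ι := Fin r × Fin r') (by simp) (fun i => s i.1 + s' i.2)
    (fun i => P i.1 * P' i.2) (fun i => blk (A i.1) (A' i.2))
    (fun i => add_le_add (hs _) (hs' _)) (fun i => VDeg.mul (hP _) (hP' _)) ?_ ?_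
  · intro i p q
    rcases blk_apply (A i.1) (A' i.2) p q with h | ⟨p', q', h⟩ | ⟨p', q', h⟩
    · rw [h]; exact VDeg.zero _
    · rw [h]; exact hA _ _ _
    · rw [h]; exact hA' _ _ _
  · rw [hf, hf', Fintype.sum_prod_type, Finset.sum_mul_sum]
    refine Finset.sum_congr rfl fun i _ => Finset.sum_congr rfl fun j _ => ?_
    rw [pf_blk]
    ring

theorem IsPfSum.prod' {κ : Type} (T : Finset κ) {r m δ ν : ℕ}
    (f : κ → MvPolynomial (V ⊕ Ya) F) (h : ∀ i ∈ T, IsPfSum r m δ ν (f i)) :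
    IsPfSum (r ^ T.card) (T.card * m) δ (T.card * ν) (∏ i ∈ T, f i) := by
  classical
  induction T using Finset.induction_on with
  | empty =>
    rw [Finset.prod_empty, Finset.card_empty, pow_zero, zero_mul, zero_mul]
    exact IsPfSum.of_cofactor (VDeg.one 0) 0
  | insert a T ha ih =>
    rw [Finset.prod_insert ha, Finset.card_insert_of_notMem ha, pow_succ', add_mul, one_mul,
      add_comm (T.card * m), add_mul, one_mul, add_comm (T.card * ν)]
    exact IsPfSum.mul' (h a (Finset.mem_insert_self a T))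
      (ih fun i hi => h i (Finset.mem_insert_of_mem hi))

theorem IsPfSum.sum' {κ : Type} (T : Finset κ) {r m δ ν : ℕ}
    (f : κ → MvPolynomial (V ⊕ Ya) F) (h : ∀ i ∈ T, IsPfSum r m δ ν (f i)) :
    IsPfSum (T.card * r) m δ ν (∑ i ∈ T, f i) := by
  classical
  induction T using Finset.induction_on with
  | empty => simpa using IsPfSum.zero' (F := F) (V := V) (Ya := Ya) m δ ν
  | insert a T ha ih =>
    rw [Finset.sum_insert ha, Finset.card_insert_of_notMem ha, add_mul, one_mul,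
      add_comm (T.card * r)]
    exact IsPfSum.add' (h a (Finset.mem_insert_self a T))
      (ih fun i hi => h i (Finset.mem_insert_of_mem hi))

theorem IsPfSum.lift' {Yb : Type} {ρ : Ya → Yb} (hρ : Function.Injective ρ) {r m δ ν : ℕ}
    {f : MvPolynomial (V ⊕ Ya) F} (h : IsPfSum r m δ ν f) :
    IsPfSum r m δ ν (MAJ.lift F V ρ f) := by
  obtain ⟨s, P, A, hs, hP, hA, hf⟩ := h
  refine ⟨s, fun i => MAJ.lift F V ρ (P i), fun i => (A i).map (MAJ.lift F V ρ), hs,
    fun i => VDeg.lift hρ (hP i), fun i p q => ?_, ?_⟩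
  · exact VDeg.lift hρ (hA i p q)
  · rw [hf, map_sum]
    refine Finset.sum_congr rfl fun i _ => ?_
    rw [map_mul]
    congr 1
    exact Pool.PF.map_pf (MAJ.lift F V ρ : MvPolynomial (V ⊕ Ya) F →ₐ[F] _).toRingHom (s i) (A i)

theorem isPfSum_maj {N k r m δ ν : ℕ} (hN : 1 ≤ N) (hk : 1 ≤ k) (hkN : k ≤ N)
    (f : Fin N → MvPolynomial (V ⊕ Ya) F) (hf : ∀ i, IsPfSum r m δ ν (f i)) :
    IsPfSum (2 ^ N * r ^ N) (N * m) δ (N * ν) (maj N k f) := by
  have h1 : IsPfSum ((Finset.powersetCard k (Finset.univ : Finset (Fin N))).card *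
      (1 * r ^ k)) (0 + k * m) δ (0 + k * ν) (maj N k f) := by
    refine IsPfSum.sum' _ _ fun T hT => ?_
    have hc : T.card = k := (Finset.mem_powersetCard.1 hT).2
    refine IsPfSum.mul' (IsPfSum.of_cofactor (VDeg.X_inr 0 _) 0) ?_
    have h2 := IsPfSum.prod' T (r := r) (m := m) (δ := δ) (ν := ν)
      (fun i => lift F V Sum.inl (f i))
      fun i _ => IsPfSum.lift' (Yb := Ya ⊕ Finset (Fin N)) Sum.inl_injective (hf i)
    rwa [hc] at h2
  refine IsPfSum.mono' h1 ?_ ?_ ?_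
  · rw [one_mul]
    refine Nat.mul_le_mul ?_ ?_
    · rw [Finset.card_powersetCard, Finset.card_univ, Fintype.card_fin]
      exact Nat.choose_le_two_pow _ _
    · rcases Nat.eq_zero_or_pos r with h | h
      · subst h
        rw [zero_pow (by omega), zero_pow (by omega)]
      · exact Nat.pow_le_pow_right h hkN
  · rw [zero_add]; exact Nat.mul_le_mul_right m hkN
  · rw [zero_add]; exact Nat.mul_le_mul_right ν hkN

end

/-- **error reduction inside the model**, determinants and Pfaffians: the same new test works for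
every representation of the old one -/
theorem majority_pf (eps eps' : ℝ) (he : eps < 1 / 2) (he' : 0 < eps') : ∃ N : ℕ, 1 ≤ N ∧
    ∀ (F : Type) [Field F] (V Ya Om : Type) [Fintype V] [DecidableEq V] [Fintype Om]
      (w : Om → ℝ) (_ : ∀ i, 0 ≤ w i) (_ : ∑ i, w i = 1) (f : Om → MvPolynomial (V ⊕ Ya) F),
      ∃ (Om' Ya' : Type) (_ : Fintype Om') (w' : Om' → ℝ)
        (f' : Om' → MvPolynomial (V ⊕ Ya') F),
        (∀ i, 0 ≤ w' i) ∧ ∑ i, w' i = 1 ∧
        (∀ r m : ℕ, (∀ i, IsDetSum r m (f i)) →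
          ∀ i, IsDetSum (2 ^ N * r ^ N) (N * m + 1) (f' i)) ∧
        (∀ r m δ ν : ℕ, (∀ i, IsPfSum r m δ ν (f i)) →
          ∀ i, IsPfSum (2 ^ N * r ^ N) (N * m) δ (N * ν) (f' i)) ∧
        ∀ S : Finset V,
          (Pr w (fun i => restr S (f i) = 0) ≤ eps →
            Pr w' (fun i => restr S (f' i) = 0) ≤ eps') ∧
          (Pr w (fun i => restr S (f i) ≠ 0) ≤ eps →
            Pr w' (fun i => restr S (f' i) ≠ 0) ≤ eps') := by
  obtain ⟨K, hK1, hK⟩ := exists_K he he'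
  refine ⟨2 * K - 1, by omega, ?_⟩
  intro F _ V Ya Om _ _ _ w hw0 hw1 f
  obtain ⟨h1, h2⟩ := majority_aux hK w hw0 hw1 f
  exact ⟨Fin (2 * K - 1) → Om, Ya ⊕ Finset (Fin (2 * K - 1)), inferInstance,
    fun ω => ∏ k, w (ω k), fun ω => maj (2 * K - 1) K fun k => f (ω k),
    fun ω => Finset.prod_nonneg fun k _ => hw0 _, h1,
    fun r m hf ω => isDetSum_maj (by omega) hK1 (by omega) _ fun k => hf _,
    fun r m δ ν hf ω => isPfSum_maj (by omega) hK1 (by omega) _ fun k => hf _, h2⟩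

end Pool.MAJ
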