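import Pool.Agent.Helper76.CDET.Machine

/-!
Majority of random tests (MP_b6562f_lc): sums of determinants are closed under products, sums and
renaming of the auxiliary variables.
-/

set_option autoImplicit false
set_option linter.unusedSectionVars false

namespace Pool.MAJ

open MvPolynomial Pool.Agent.Helper76.CDET

section
variable {F : Type} [Field F] {V Ya : Type}

/-- degree of a polynomial in the variables `V` -/
def VDeg [Fintype V] (d : ℕ) (p : MvPolynomial (V ⊕ Ya) F) : Prop :=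
  ∀ μ ∈ p.support, ∑ e, μ (Sum.inl e) ≤ d

/-- `f` is a sum of `r` determinants of size at most `m` with entries of degree at most one in
the variables `V` -/
def IsDetSum [Fintype V] (r m : ℕ) (f : MvPolynomial (V ⊕ Ya) F) : Prop :=
  ∃ (s : Fin r → ℕ) (A : ∀ i, Matrix (Fin (s i)) (Fin (s i)) (MvPolynomial (V ⊕ Ya) F)),
    (∀ i, s i ≤ m) ∧ (∀ i p q, ∀ μ ∈ (A i p q).support, ∑ e, μ (Sum.inl e) ≤ 1) ∧
    f = ∑ i, (A i).det

variable [Fintype V]

theorem VDeg.zero (d : ℕ) : VDeg d (0 : MvPolynomial (V ⊕ Ya) F) := by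
  intro μ hμ
  simp at hμ

theorem VDeg.X_inr (d : ℕ) (y : Ya) : VDeg d (X (Sum.inr y) : MvPolynomial (V ⊕ Ya) F) := by
  classical
  intro μ hμ
  rw [support_X, Finset.mem_singleton] at hμ
  subst hμ
  simp

/-- any finite index set -/
theorem of_fintype {ι : Type} [Fintype ι] {r m : ℕ} (hr : Fintype.card ι = r)
    {f : MvPolynomial (V ⊕ Ya) F} (s : ι → ℕ)
    (A : ∀ i, Matrix (Fin (s i)) (Fin (s i)) (MvPolynomial (V ⊕ Ya) F)) (hs : ∀ i, s i ≤ m)
    (hA : ∀ i p q, VDeg 1 (A i p q)) (hf : f = ∑ i, (A i).det) : IsDetSum r m f := by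
  classical
  subst hr
  have e := (Fintype.equivFin ι).symm
  refine ⟨fun i => s (e i), fun i => A (e i), fun i => hs _, fun i p q => hA _ p q, ?_⟩
  rw [hf, ← Equiv.sum_comp e]

theorem IsDetSum.mono {r m r' m' : ℕ} {f : MvPolynomial (V ⊕ Ya) F} (h : IsDetSum r m f)
    (hr : r ≤ r') (hm : m ≤ m') (hm1 : 1 ≤ m') : IsDetSum r' m' f := by
  classical
  obtain ⟨s, A, hs, hA, hf⟩ := h
  obtain ⟨k, rfl⟩ := Nat.exists_eq_add_of_le hr
  refine of_fintype (ι := Fin r ⊕ Fin k) (by simp) (Sum.elim s fun _ => 1)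
    (fun i => match i with
      | Sum.inl i => A i
      | Sum.inr _ => (0 : Matrix (Fin 1) (Fin 1) (MvPolynomial (V ⊕ Ya) F))) ?_ ?_ ?_
  · rintro (i | i)
    · exact (hs i).trans hm
    · exact hm1
  · rintro (i | i) p q
    · exact hA i p q
    · exact VDeg.zero 1
  · rw [Fintype.sum_sum_type, hf]
    symm
    refine (add_eq_left.2 (Finset.sum_eq_zero fun i _ => ?_)).trans rfl
    exact (Matrix.det_zero : Matrix.det (0 : Matrix (Fin 1) (Fin 1) (MvPolynomial (V ⊕ Ya) F)) = 0)

theorem IsDetSum.add {r m r' : ℕ} {f g : MvPolynomial (V ⊕ Ya) F} (h : IsDetSum r m f)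
    (h' : IsDetSum r' m g) : IsDetSum (r + r') m (f + g) := by
  classical
  obtain ⟨s, A, hs, hA, hf⟩ := h
  obtain ⟨s', A', hs', hA', hf'⟩ := h'
  refine of_fintype (ι := Fin r ⊕ Fin r') (by simp) (Sum.elim s s')
    (fun i => match i with
      | Sum.inl i => A i
      | Sum.inr i => A' i) ?_ ?_ ?_
  · rintro (i | i)
    · exact hs i
    · exact hs' i
  · rintro (i | i) p q
    · exact hA i p q
    · exact hA' i p q
  · rw [Fintype.sum_sum_type, hf, hf']
    rfl

theorem IsDetSum.zero (m : ℕ) : IsDetSum 0 m (0 : MvPolynomial (V ⊕ Ya) F) :=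
  ⟨fun _ => 0, fun _ => 0, fun i => i.elim0, fun i => i.elim0, by simp⟩

theorem IsDetSum.one (m : ℕ) : IsDetSum 1 m (1 : MvPolynomial (V ⊕ Ya) F) :=
  ⟨fun _ => 0, fun _ => 0, fun _ => Nat.zero_le _, fun _ p => p.elim0, by simp⟩

theorem IsDetSum.of_entry {p : MvPolynomial (V ⊕ Ya) F} (h : VDeg 1 p) : IsDetSum 1 1 p := by
  refine ⟨fun _ => 1, fun _ => Matrix.of fun _ _ => p, fun _ => le_rfl, fun _ _ _ => h, ?_⟩
  simp

/-- block diagonal matrix -/
theorem det_block {R : Type*} [CommRing R] {a b : ℕ} (A : Matrix (Fin a) (Fin a) R)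
    (B : Matrix (Fin b) (Fin b) R) :
    ((Matrix.fromBlocks A 0 0 B).submatrix finSumFinEquiv.symm finSumFinEquiv.symm :
      Matrix (Fin (a + b)) (Fin (a + b)) R).det = A.det * B.det := by
  rw [Matrix.det_submatrix_equiv_self, Matrix.det_fromBlocks_zero₂₁]

theorem IsDetSum.mul {r m r' m' : ℕ} {f g : MvPolynomial (V ⊕ Ya) F} (h : IsDetSum r m f)
    (h' : IsDetSum r' m' g) : IsDetSum (r * r') (m + m') (f * g) := by
  classical
  obtain ⟨s, A, hs, hA, hf⟩ := h
  obtain ⟨s', A', hs', hA', hf'⟩ := h'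
  refine of_fintype (ι := Fin r × Fin r') (by simp) (fun i => s i.1 + s' i.2)
    (fun i => (Matrix.fromBlocks (A i.1) 0 0 (A' i.2)).submatrix finSumFinEquiv.symm
      finSumFinEquiv.symm) (fun i => add_le_add (hs _) (hs' _)) ?_ ?_
  · intro i p q
    rw [Matrix.submatrix_apply]
    rcases finSumFinEquiv.symm p with p | p <;> rcases finSumFinEquiv.symm q with q | q
    · rw [Matrix.fromBlocks_apply₁₁]; exact hA _ p q
    · rw [Matrix.fromBlocks_apply₁₂]; exact VDeg.zero 1
    · rw [Matrix.fromBlocks_apply₂₁]; exact VDeg.zero 1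
    · rw [Matrix.fromBlocks_apply₂₂]; exact hA' _ p q
  · rw [hf, hf', Fintype.sum_prod_type, Finset.sum_mul_sum]
    refine Finset.sum_congr rfl fun i _ => Finset.sum_congr rfl fun j _ => ?_
    rw [det_block]

theorem IsDetSum.prod {κ : Type} (T : Finset κ) {r m : ℕ} (f : κ → MvPolynomial (V ⊕ Ya) F)
    (h : ∀ i ∈ T, IsDetSum r m (f i)) : IsDetSum (r ^ T.card) (T.card * m) (∏ i ∈ T, f i) := by
  classical
  induction T using Finset.induction_on with
  | empty => simpa using IsDetSum.one (F := F) (V := V) (Ya := Ya) 0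
  | insert a T ha ih =>
    rw [Finset.prod_insert ha, Finset.card_insert_of_notMem ha, pow_succ', add_mul, one_mul,
      add_comm (T.card * m)]
    exact (h a (Finset.mem_insert_self a T)).mul
      (ih fun i hi => h i (Finset.mem_insert_of_mem hi))

theorem IsDetSum.sum {κ : Type} (T : Finset κ) {r m : ℕ} (f : κ → MvPolynomial (V ⊕ Ya) F)
    (h : ∀ i ∈ T, IsDetSum r m (f i)) : IsDetSum (T.card * r) m (∑ i ∈ T, f i) := by
  classical
  induction T using Finset.induction_on with
  | empty => simpa using IsDetSum.zero (F := F) (V := V) (Ya := Ya) m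
  | insert a T ha ih =>
    rw [Finset.sum_insert ha, Finset.card_insert_of_notMem ha, add_mul, one_mul,
      add_comm (T.card * r)]
    exact (h a (Finset.mem_insert_self a T)).add
      (ih fun i hi => h i (Finset.mem_insert_of_mem hi))

end

section rename
variable {F : Type} [Field F] {V Ya Yb : Type}

/-- renaming the auxiliary variables -/
noncomputable def lift (F V : Type) [Field F] {Ya Yb : Type} (ρ : Ya → Yb) :
    MvPolynomial (V ⊕ Ya) F →ₐ[F] MvPolynomial (V ⊕ Yb) F := rename (Sum.map id ρ)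

theorem lift_injective {ρ : Ya → Yb} (hρ : Function.Injective ρ) :
    Function.Injective (lift F V ρ) :=
  rename_injective _ (Sum.map_injective.2 ⟨Function.injective_id, hρ⟩)

theorem VDeg.lift [Fintype V] {ρ : Ya → Yb} (hρ : Function.Injective ρ) {d : ℕ}
    {p : MvPolynomial (V ⊕ Ya) F} (h : VDeg d p) : VDeg d (MAJ.lift F V ρ p) := by
  classical
  have hinj : Function.Injective (Sum.map (id : V → V) ρ) :=
    Sum.map_injective.2 ⟨Function.injective_id, hρ⟩
  intro μ hμ
  unfold MAJ.lift at hμ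
  rw [support_rename_of_injective hinj, Finset.mem_image] at hμ
  obtain ⟨ν, hν, rfl⟩ := hμ
  refine le_trans (le_of_eq (Finset.sum_congr rfl fun e _ => ?_)) (h ν hν)
  have h1 : (Sum.inl e : V ⊕ Yb) = Sum.map id ρ (Sum.inl e) := rfl
  rw [h1, Finsupp.mapDomain_apply hinj]

theorem IsDetSum.lift [Fintype V] {ρ : Ya → Yb} (hρ : Function.Injective ρ) {r m : ℕ}
    {f : MvPolynomial (V ⊕ Ya) F} (h : IsDetSum r m f) : IsDetSum r m (MAJ.lift F V ρ f) := by
  obtain ⟨s, A, hs, hA, hf⟩ := h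
  refine ⟨s, fun i => (A i).map (MAJ.lift F V ρ), hs, fun i p q => ?_, ?_⟩
  · exact VDeg.lift hρ (hA i p q)
  · rw [hf, map_sum]
    refine Finset.sum_congr rfl fun i _ => ?_
    exact AlgHom.map_det (MAJ.lift F V ρ) (A i)

variable [DecidableEq V]

theorem restr_lift (ρ : Ya → Yb) (S : Finset V) (f : MvPolynomial (V ⊕ Ya) F) :
    restr S (lift F V ρ f) = lift F V ρ (restr S f) := by
  unfold restr lift
  rw [aeval_rename]
  have h1 : (rename (Sum.map id ρ) : MvPolynomial (V ⊕ Ya) F →ₐ[F] MvPolynomial (V ⊕ Yb) F)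
      (aeval (Sum.elim (fun e => if e ∈ S then X (Sum.inl e) else 0)
        (fun y => X (Sum.inr y))) f) =
      ((rename (Sum.map id ρ)).comp (aeval (Sum.elim (fun e => if e ∈ S then X (Sum.inl e) else 0)
        (fun y => X (Sum.inr y))))) f := rfl
  rw [h1]
  congr 1
  apply algHom_ext
  rintro (e | y)
  · rw [aeval_X, AlgHom.comp_apply, aeval_X, Function.comp_apply, Sum.map_inl, Sum.elim_inl,
      Sum.elim_inl, id]
    split_ifs with h
    · rw [rename_X, Sum.map_inl, id]
    · rw [map_zero]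
  · rw [aeval_X, AlgHom.comp_apply, aeval_X, Function.comp_apply, Sum.map_inr, Sum.elim_inr,
      Sum.elim_inr, rename_X, Sum.map_inr]

theorem restr_lift_eq_zero {ρ : Ya → Yb} (hρ : Function.Injective ρ) (S : Finset V)
    (f : MvPolynomial (V ⊕ Ya) F) : restr S (lift F V ρ f) = 0 ↔ restr S f = 0 := by
  rw [restr_lift, map_eq_zero_iff _ (lift_injective hρ)]

end rename

end Pool.MAJ
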